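import Pool.Agent.V7H42.SC.Defs

/-!
# The canonical certificate of an accepted input
-/

set_option autoImplicit false

namespace Pool.Agent.V7H42.SC

variable {V K : Type*} (c : Circuit V K) (x : V → Bool)

/-- the chosen inputs of a gate -/
def Ch (t : ℕ) (k : K) (s : Bool) : Prop :=
  (c.gate t k).isAnd = true ∨ s = !(((c.gate t k).inp false).eval x (c.val x t))

/-- the gates of the canonical certificate -/
inductive Act : ℕ → K → Prop
  | out : Act c.L c.out
  | step {t : ℕ} {k k' : K} {s : Bool} (h : Act (t + 1) k) (hc : Ch c x t k s)
      (hw : (c.gate t k).inp s = .gate k') : Act t k'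

/-- the literal `lit v b` is a chosen input of an active gate of layer `t + 1` -/
def Lit (t : ℕ) (v : V) (b : Bool) : Prop :=
  ∃ k s, Act c x (t + 1) k ∧ Ch c x t k s ∧ (c.gate t k).inp s = .lit v b

variable {c x}

theorem Act.le {t : ℕ} {k : K} (h : Act c x t k) : t ≤ c.L := by
  induction h with
  | out => exact le_rfl
  | step _ _ _ ih => omega

theorem Act.parent {t : ℕ} {k' : K} (h : Act c x t k') (ht : t < c.L) :
    ∃ k s, Act c x (t + 1) k ∧ Ch c x t k s ∧ (c.gate t k).inp s = .gate k' := by
  cases h with
  | out => exact absurd ht (lt_irrefl _)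
  | step h hc hw => exact ⟨_, _, h, hc, hw⟩

theorem ch_eval {t : ℕ} {k : K} {s : Bool} (hv : c.val x (t + 1) k = true) (hc : Ch c x t k s) :
    ((c.gate t k).inp s).eval x (c.val x t) = true := by
  have hv' : (c.gate t k).eval x (c.val x t) = true := hv
  unfold Gate.eval at hv'
  rcases hc with hc | hc
  · rw [if_pos hc, Bool.and_eq_true] at hv'
    cases s
    · exact hv'.1
    · exact hv'.2
  · by_cases ha : (c.gate t k).isAnd = true
    · rw [if_pos ha, Bool.and_eq_true] at hv'
      cases s
      · exact hv'.1
      · exact hv'.2
    · rw [if_neg ha, Bool.or_eq_true] at hv'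
      rcases hb : ((c.gate t k).inp false).eval x (c.val x t) with _ | _
      · rw [hb] at hc hv'
        subst hc
        simpa using hv'
      · rw [hb] at hc
        subst hc
        exact hb

theorem Act.val {t : ℕ} {k : K} (hx : c.val x c.L c.out = true) (h : Act c x t k) :
    c.val x t k = true := by
  induction h with
  | out => exact hx
  | step h hc hw ih =>
    have := ch_eval ih hc
    rw [hw] at this
    exact this

theorem Lit.eval {t : ℕ} {v : V} {b : Bool} (hx : c.val x c.L c.out = true)
    (h : Lit c x t v b) : x v = b := by
  obtain ⟨k, s, h1, h2, h3⟩ := h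
  have := ch_eval (h1.val hx) h2
  rw [h3] at this
  simpa [Wire.eval] using this

theorem vars_sub {t : ℕ} (k : K) (s : Bool) :
    ((c.gate t k).inp s).vars (c.vars t) ⊆ c.vars (t + 1) k := by
  cases s
  · exact Set.subset_union_left
  · exact Set.subset_union_right

/-- the two chosen inputs of an active gate -/
theorem ch_two {t : ℕ} {k : K} {s s' : Bool} (hc : Ch c x t k s) (hc' : Ch c x t k s')
    (hs : s ≠ s') : (c.gate t k).isAnd = true := by
  rcases hc with hc | hc
  · exact hc
  rcases hc' with hc' | hc'
  · exact hc'
  exact absurd (hc.trans hc'.symm) hs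

theorem dec_side (hd : c.Decomposable) {t : ℕ} {k : K} {s s' : Bool} (ht : t < c.L)
    (hc : Ch c x t k s) (hc' : Ch c x t k s') (hs : s ≠ s') :
    Disjoint (((c.gate t k).inp s).vars (c.vars t)) (((c.gate t k).inp s').vars (c.vars t)) := by
  have ha := hd t ht k (ch_two hc hc' hs)
  cases s <;> cases s'
  · exact absurd rfl hs
  · exact ha
  · exact ha.symm
  · exact absurd rfl hs

/-- distinct active gates of one layer have disjoint sets of variables -/
theorem act_disjoint (hd : c.Decomposable) (j : ℕ) : ∀ t : ℕ, t + j = c.L → ∀ k k' : K,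
    Act c x t k → Act c x t k' → k ≠ k' → Disjoint (c.vars t k) (c.vars t k') := by
  induction j with
  | zero =>
    intro t ht k k' h h' hk
    exfalso
    have key : ∀ k, Act c x t k → k = c.out := by
      intro k h
      cases h with
      | out => rfl
      | step h _ _ => have := h.le; omega
    exact hk ((key k h).trans (key k' h').symm)
  | succ j ih =>
    intro t ht k k' h h' hk
    obtain ⟨a, s, h1, h2, h3⟩ := h.parent (by omega)
    obtain ⟨a', s', h1', h2', h3'⟩ := h'.parent (by omega)
    have e1 : ((c.gate t a).inp s).vars (c.vars t) = c.vars t k := by rw [h3]; rfl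
    have e2 : ((c.gate t a').inp s').vars (c.vars t) = c.vars t k' := by rw [h3']; rfl
    rw [← e1, ← e2]
    by_cases haa : a = a'
    · subst haa
      apply dec_side hd (by omega) h2 h2'
      rintro rfl
      rw [h3] at h3'
      injection h3' with h3'
      exact hk h3'
    · exact (ih (t + 1) (by omega) a a' h1 h1' haa).mono (vars_sub a s) (vars_sub a' s')

theorem act_disjoint' (hd : c.Decomposable) {t : ℕ} {k k' : K} (h : Act c x t k)
    (h' : Act c x t k') (hk : k ≠ k') : Disjoint (c.vars t k) (c.vars t k') :=
  act_disjoint hd (c.L - t) t (by have := h.le; omega) k k' h h' hk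

/-- a variable read above layer `T` does not occur in active gates of layer `T` -/
theorem lit_notin (hd : c.Decomposable) {t : ℕ} {v : V} {b : Bool} (hl : Lit c x t v b) (j : ℕ) :
    ∀ T : ℕ, T + j = t → ∀ k, Act c x T k → v ∉ c.vars T k := by
  induction j with
  | zero =>
    intro T hT k h hv
    obtain rfl : T = t := by omega
    obtain ⟨a, s, h1, h2, h3⟩ := hl
    have hle := h1.le
    obtain ⟨a', s', h1', h2', h3'⟩ := h.parent (by omega)
    have e1 : v ∈ ((c.gate T a).inp s).vars (c.vars T) := by rw [h3]; exact Set.mem_singleton v
    have e2 : v ∈ ((c.gate T a').inp s').vars (c.vars T) := by rw [h3']; exact hv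
    by_cases haa : a = a'
    · subst haa
      have hs : s ≠ s' := by
        rintro rfl
        rw [h3] at h3'
        cases h3'
      exact Set.disjoint_left.1 (dec_side hd (by omega) h2 h2' hs) e1 e2
    · exact Set.disjoint_left.1 (act_disjoint' hd h1 h1' haa) (vars_sub a s e1) (vars_sub a' s' e2)
  | succ j ih =>
    intro T hT k h hv
    obtain ⟨a, s, h1, h2, h3⟩ := hl
    have hle := h1.le
    obtain ⟨a', s', h1', h2', h3'⟩ := h.parent (by omega)
    refine ih (T + 1) (by omega) a' h1' (vars_sub a' s' ?_)
    rw [h3']; exact hv

theorem lit_notin' (hd : c.Decomposable) {t : ℕ} {v : V} {b : Bool} (hl : Lit c x t v b) {T : ℕ}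
    (hT : T ≤ t) {k : K} (h : Act c x T k) : v ∉ c.vars T k :=
  lit_notin hd hl (t - T) T (by omega) k h

/-- a variable read below layer `T` occurs in an active gate of layer `T` -/
theorem lit_in {t : ℕ} {v : V} {b : Bool} (hl : Lit c x t v b) {T : ℕ} (hT : t < T)
    (hT' : T ≤ c.L) : ∃ k, Act c x T k ∧ v ∈ c.vars T k := by
  induction T, hT using Nat.le_induction with
  | base =>
    obtain ⟨a, s, h1, h2, h3⟩ := hl
    refine ⟨a, h1, vars_sub a s ?_⟩
    rw [h3]; exact Set.mem_singleton v
  | succ T hT ih =>
    obtain ⟨k, h, hv⟩ := ih (by omega)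
    obtain ⟨a', s', h1', h2', h3'⟩ := h.parent (by omega)
    refine ⟨a', h1', vars_sub a' s' ?_⟩
    rw [h3']; exact hv

/-- transfer of the certificate above layer `T` to another input -/
theorem transfer {y : V → Bool} {T : ℕ} (ha : ∀ k, Act c x T k → c.val y T k = true)
    (hb : ∀ t, T ≤ t → ∀ v b, Lit c x t v b → y v = b)
    (hconst : c.val x c.L c.out = true) {t : ℕ} (hT : T ≤ t) :
    ∀ k, Act c x t k → c.val y t k = true := by
  induction t, hT using Nat.le_induction with
  | base => exact ha
  | succ t hT ih =>
    intro k hk
    have side : ∀ s, Ch c x t k s → ((c.gate t k).inp s).eval y (c.val y t) = true := by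
      intro s hs
      rcases hw : (c.gate t k).inp s with k' | ⟨v, b⟩ | b
      · exact ih k' (.step hk hs hw)
      · have := hb t hT v b ⟨k, s, hk, hs, hw⟩
        simp [Wire.eval, this]
      · have h1 := ch_eval (hk.val hconst) hs
        rw [hw] at h1
        exact h1
    show (c.gate t k).eval y (c.val y t) = true
    unfold Gate.eval
    by_cases hand : (c.gate t k).isAnd = true
    · rw [if_pos hand, side false (Or.inl hand), side true (Or.inl hand)]
      rfl
    · rw [if_neg hand, Bool.or_eq_true]
      rcases hs : (!(((c.gate t k).inp false).eval x (c.val x t))) with _ | _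
      · exact Or.inl (side false (Or.inr hs.symm))
      · exact Or.inr (side true (Or.inr hs.symm))

/-- a variable that is true and whose positive literal is not used can be set to false -/
theorem exists_lit (hx : c.val x c.L c.out = true) {v : V} [DecidableEq V]
    (hv : c.val (fun u => if u = v then false else x u) c.L c.out ≠ true) :
    ∃ t < c.L, Lit c x t v true := by
  by_contra hno
  push Not at hno
  apply hv
  refine transfer (c := c) (x := x) (T := 0) ?_ ?_ hx (Nat.zero_le _) c.out .out
  · intro k hk
    have := hk.val hx
    exact absurd this (by simp [Circuit.val])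
  · intro t _ u b hl
    have hxu := hl.eval hx
    by_cases huv : u = v
    · subst huv
      simp only [if_true]
      cases b
      · rfl
      · exfalso
        obtain ⟨k, s, h1, _⟩ := id hl
        exact hno t (by have := h1.le; omega) hl
    · simp [huv, hxu]

/-- the value only depends on the variables -/
theorem val_congr {x y : V → Bool} (t : ℕ) : ∀ k : K, (∀ v ∈ c.vars t k, x v = y v) →
    c.val x t k = c.val y t k := by
  induction t with
  | zero => intro k _; rfl
  | succ t ih =>
    intro k hk
    have side : ∀ s, ((c.gate t k).inp s).eval x (c.val x t) =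
        ((c.gate t k).inp s).eval y (c.val y t) := by
      intro s
      have hsub := vars_sub (c := c) (t := t) k s
      rcases hw : (c.gate t k).inp s with k' | ⟨v, b⟩ | b
      · rw [hw] at hsub
        exact ih k' fun v hv => hk v (hsub hv)
      · rw [hw] at hsub
        have := hk v (hsub (Set.mem_singleton v))
        simp [Wire.eval, this]
      · rfl
    show (c.gate t k).eval x (c.val x t) = (c.gate t k).eval y (c.val y t)
    unfold Gate.eval
    rw [side false, side true]

open Classical in
/-- two accepted inputs with a common gate in their certificates can be mixed -/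
theorem swap (hd : c.Decomposable) {x x' : V → Bool} (hx : c.val x c.L c.out = true)
    (hx' : c.val x' c.L c.out = true) {T : ℕ} {g : K} (h : Act c x T g) (h' : Act c x' T g) :
    c.val (fun v => if v ∈ c.vars T g then x' v else x v) c.L c.out = true := by
  refine transfer (c := c) (x := x) (T := T) ?_ ?_ hx h.le c.out .out
  · intro k hk
    by_cases hkg : k = g
    · subst hkg
      rw [← h'.val hx']
      apply val_congr
      intro v hv
      simp [hv]
    · rw [← hk.val hx]
      apply val_congr
      intro v hv
      have : v ∉ c.vars T g := Set.disjoint_left.1 (act_disjoint' hd hk h hkg) hv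
      simp [this]
  · intro t ht v b hl
    have : v ∉ c.vars T g := lit_notin' hd hl ht h
    simp [this, hl.eval hx]

end Pool.Agent.V7H42.SC
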