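import Mathlib

/-!
# Independence of sets depending on disjoint coordinates
-/

set_option autoImplicit false
set_option linter.unusedSectionVars false

namespace Pool.Agent.V7H42.SC

open Finset

variable {ι α : Type*} [Fintype ι] [Fintype α] [DecidableEq ι] [DecidableEq α]

/-- the set depends only on the coordinates in `S` -/
def Dep (A : Finset (ι → α)) (S : Set ι) : Prop :=
  ∀ P P' : ι → α, (∀ i ∈ S, P i = P' i) → (P ∈ A ↔ P' ∈ A)

theorem Dep.mono {A : Finset (ι → α)} {S T : Set ι} (h : Dep A S) (hST : S ⊆ T) : Dep A T :=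
  fun P P' hP => h P P' fun i hi => hP i (hST hi)

theorem dep_empty (S : Set ι) : Dep (∅ : Finset (ι → α)) S := fun _ _ _ => by simp

theorem Dep.union {A B : Finset (ι → α)} {S : Set ι} (hA : Dep A S) (hB : Dep B S) :
    Dep (A ∪ B) S := fun P P' h => by
  rw [mem_union, mem_union, hA P P' h, hB P P' h]

theorem Dep.inter {A B : Finset (ι → α)} {S : Set ι} (hA : Dep A S) (hB : Dep B S) :
    Dep (A ∩ B) S := fun P P' h => by
  rw [mem_inter, mem_inter, hA P P' h, hB P P' h]

theorem Dep.biUnion {κ : Type*} {I : Finset κ} {A : κ → Finset (ι → α)} {S : Set ι}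
    (h : ∀ k ∈ I, Dep (A k) S) : Dep (I.biUnion A) S := fun P P' hP => by
  simp only [mem_biUnion]
  constructor
  · rintro ⟨k, hk, h1⟩
    exact ⟨k, hk, (h k hk P P' hP).1 h1⟩
  · rintro ⟨k, hk, h1⟩
    exact ⟨k, hk, (h k hk P P' hP).2 h1⟩

/-- independence -/
theorem card_inter_of_dep {A B : Finset (ι → α)} {S T : Set ι} (hA : Dep A S) (hB : Dep B T)
    (hST : Disjoint S T) : (A ∩ B).card * Fintype.card (ι → α) = A.card * B.card := by
  classical
  rw [← Finset.card_univ (α := ι → α), ← card_product, ← card_product]
  symm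
  let φ : (ι → α) × (ι → α) → (ι → α) × (ι → α) := fun PQ =>
    (fun i => if i ∈ S then PQ.1 i else PQ.2 i, fun i => if i ∈ S then PQ.2 i else PQ.1 i)
  have hφ : ∀ PQ, φ (φ PQ) = PQ := by
    intro PQ
    apply Prod.ext
    · funext i
      by_cases h : i ∈ S <;> simp [φ, h]
    · funext i
      by_cases h : i ∈ S <;> simp [φ, h]
  refine card_nbij' φ φ ?_ ?_ (fun PQ _ => hφ PQ) (fun PQ _ => hφ PQ)
  · rintro ⟨P, Q⟩ h
    simp only [coe_product, Set.mem_prod, mem_coe] at h
    simp only [φ, coe_product, coe_inter, coe_univ, Set.mem_prod, Set.mem_inter_iff, mem_coe,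
      Set.mem_univ, and_true]
    constructor
    · refine (hA _ P fun i hi => ?_).2 h.1
      simp [hi]
    · refine (hB _ Q fun i hi => ?_).2 h.2
      have : i ∉ S := fun h' => Set.disjoint_left.1 hST h' hi
      simp [this]
  · rintro ⟨P, Q⟩ h
    simp only [coe_product, coe_inter, coe_univ, Set.mem_prod, Set.mem_inter_iff, mem_coe,
      Set.mem_univ, and_true] at h
    simp only [φ, coe_product, Set.mem_prod, mem_coe]
    constructor
    · refine (hA _ P fun i hi => ?_).2 h.1
      simp [hi]
    · refine (hB _ P fun i hi => ?_).2 h.2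
      have : i ∉ S := fun h' => Set.disjoint_left.1 hST h' hi
      simp [this]

/-- the size of a set given by one coordinate -/
theorem card_coord (j : ι) (v : α) :
    (univ.filter fun P : ι → α => P j = v).card * Fintype.card α = Fintype.card (ι → α) := by
  have h1 : ∀ u : α, (univ.filter fun P : ι → α => P j = u).card =
      (univ.filter fun P : ι → α => P j = v).card := by
    intro u
    refine card_nbij' (fun P => Function.update P j v) (fun P => Function.update P j u) ?_ ?_ ?_ ?_
    · intro P _; simp
    · intro P _; simp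
    · intro P hP
      simp only [coe_filter, mem_univ, true_and, Set.mem_ofPred_eq] at hP
      simp [← hP]
    · intro P hP
      simp only [coe_filter, mem_univ, true_and, Set.mem_ofPred_eq] at hP
      simp [← hP]
  have h2 : (univ : Finset (ι → α)).card =
      ∑ u : α, (univ.filter fun P : ι → α => P j = u).card := by
    rw [← card_eq_sum_card_fiberwise (f := fun P : ι → α => P j) (t := univ)]
    intro P _; simp
  rw [← Finset.card_univ (α := ι → α), h2, sum_congr rfl fun u _ => h1 u, sum_const,
    Finset.card_univ, smul_eq_mul, mul_comm]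

theorem dep_coord (j : ι) (v : α) (S : Set ι) (hj : j ∈ S) :
    Dep (univ.filter fun P : ι → α => P j = v) S := fun P P' h => by
  simp [h j hj]

end Pool.Agent.V7H42.SC
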