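import Pool.Agent.V7H42.SC.Paths
import Pool.Agent.V7H42.SC.Count

/-!
# The lower bound
-/

set_option autoImplicit false
set_option linter.unusedSectionVars false
set_option maxHeartbeats 1000000

namespace Pool.Agent.V7H42.SC

open Finset

theorem exists_change (p : ℕ → Prop) {a b : ℕ} (hab : a ≤ b) (h : ¬ (p a ↔ p b)) :
    ∃ i, a ≤ i ∧ i < b ∧ ¬ (p i ↔ p (i + 1)) := by
  induction b, hab using Nat.le_induction with
  | base => exact absurd Iff.rfl h
  | succ b hab ih =>
    by_cases h1 : p a ↔ p b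
    · refine ⟨b, hab, by omega, fun h2 => h (h1.trans h2)⟩
    · obtain ⟨i, h2, h3, h4⟩ := ih h1
      exact ⟨i, h2, by omega, h4⟩

variable {n d : ℕ} [NeZero n] {K : Type*} [Fintype K]
  {c : Circuit (Fin d × Fin n × Fin n) K}

/-- a time that separates the reading of two neighbouring edges gives a cut -/
theorem exists_cut (hd : c.Decomposable) {rt : (Fin d → Fin n) → ℕ → ℕ}
    (hrt : ∀ P i (h : i < d), rt P i < c.L ∧ Lit c (inpt P) (rt P i) (ed P ⟨i, h⟩) true)
    {P : Fin d → Fin n} {T i : ℕ} (hi : i + 1 < d)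
    (h : ¬ (rt P i < T ↔ rt P (i + 1) < T)) : ∃ k, CutAt c T k P i := by
  obtain ⟨a1, a2⟩ := hrt P i (by omega)
  obtain ⟨b1, b2⟩ := hrt P (i + 1) hi
  by_cases h1 : rt P i < T
  · have h2 : ¬ rt P (i + 1) < T := fun h2 => h (iff_of_true h1 h2)
    obtain ⟨k, h3, h4⟩ := lit_in a2 h1 (by omega)
    exact ⟨k, h3, hi, fun h5 => lit_notin' hd b2 (by omega) h3 (h5.1 h4)⟩
  · have h2 : rt P (i + 1) < T := by
      by_contra h2
      exact h (iff_of_false h1 h2)
    obtain ⟨k, h3, h4⟩ := lit_in b2 h2 (by omega)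
    exact ⟨k, h3, hi, fun h5 => lit_notin' hd a2 (by omega) h3 (h5.2 h4)⟩

/-- one half of the interval -/
theorem half (hd : c.Decomposable) (hc : c.Computes (Reach n d))
    {rt : (Fin d → Fin n) → ℕ → ℕ}
    (hrt : ∀ P i (h : i < d), rt P i < c.L ∧ Lit c (inpt P) (rt P i) (ed P ⟨i, h⟩) true)
    {q T ℓ a s : ℕ} (hT : 0 < T) (hℓ : 0 < ℓ) (hb : a + ℓ ≤ d)
    (ih : ∀ s, ∃ S : Finset (Fin d → Fin n), Dep S {i : Fin d | a < (i : ℕ) ∧ (i : ℕ) < a + ℓ} ∧
      S.card * n ≤ Fintype.card K * n ^ d ∧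
      ∀ P, (∀ i, a ≤ i → i < a + ℓ → s ≤ rt P i ∧ rt P i < s + T) → P ∈ S) :
    ∃ S : Finset (Fin d → Fin n), Dep S {i : Fin d | a < (i : ℕ) ∧ (i : ℕ) < a + ℓ} ∧
      S.card * n ≤ 2 * q * Fintype.card K * n ^ d ∧
      ∀ P, (∀ i, a ≤ i → i < a + ℓ → s ≤ rt P i ∧ rt P i < s + q * T) → P ∈ S := by
  choose S hS1 hS2 hS3 using ih
  have hF : ∀ rk : ℕ × K, ∃ F : Finset (Fin d → Fin n),
      Dep F {i : Fin d | a < (i : ℕ) ∧ (i : ℕ) < a + ℓ} ∧ F.card * n ≤ n ^ d ∧
      ∀ P i, a ≤ i → i + 1 < a + ℓ → CutAt c (s + rk.1 * T) rk.2 P i → P ∈ F := by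
    intro rk
    rcases exists_pin hd hc (s + rk.1 * T) rk.2 a (a + ℓ) hb with h | ⟨j, v, h1, h2, h3⟩
    · exact ⟨∅, dep_empty _, by simp, fun P i h1 h2 h3 => absurd h3 (h P i h1 h2)⟩
    · refine ⟨univ.filter fun P => P j = v, dep_coord j v _ (show _ ∧ _ from ⟨h1, h2⟩), ?_,
        fun P i h4 h5 h6 => ?_⟩
      · have := card_coord (ι := Fin d) (α := Fin n) j v
        rw [Fintype.card_fun, Fintype.card_fin, Fintype.card_fin] at this
        exact this.le
      · simp only [mem_filter, mem_univ, true_and]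
        exact h3 P i h4 h5 h6
  choose F hF1 hF2 hF3 using hF
  refine ⟨(range q).biUnion (fun r => S (s + r * T)) ∪ (range q ×ˢ univ).biUnion F,
    Dep.union (Dep.biUnion fun r _ => hS1 _) (Dep.biUnion fun rk _ => hF1 rk), ?_, ?_⟩
  · have e1 : ((range q).biUnion (fun r => S (s + r * T))).card * n ≤
        q * (Fintype.card K * n ^ d) := by
      calc _ ≤ (∑ r ∈ range q, (S (s + r * T)).card) * n :=
            Nat.mul_le_mul_right _ card_biUnion_le
        _ = ∑ r ∈ range q, (S (s + r * T)).card * n := by rw [sum_mul]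
        _ ≤ ∑ _r ∈ range q, Fintype.card K * n ^ d := sum_le_sum fun r _ => hS2 _
        _ = _ := by simp
    have e2 : ((range q ×ˢ (univ : Finset K)).biUnion F).card * n ≤
        q * (Fintype.card K * n ^ d) := by
      calc _ ≤ (∑ rk ∈ range q ×ˢ (univ : Finset K), (F rk).card) * n :=
            Nat.mul_le_mul_right _ card_biUnion_le
        _ = ∑ rk ∈ range q ×ˢ (univ : Finset K), (F rk).card * n := by rw [sum_mul]
        _ ≤ ∑ _rk ∈ range q ×ˢ (univ : Finset K), n ^ d := sum_le_sum fun rk _ => hF2 rk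
        _ = _ := by simp [mul_assoc]
    calc _ ≤ (((range q).biUnion (fun r => S (s + r * T))).card +
          ((range q ×ˢ (univ : Finset K)).biUnion F).card) * n :=
          Nat.mul_le_mul_right _ (card_union_le _ _)
      _ ≤ q * (Fintype.card K * n ^ d) + q * (Fintype.card K * n ^ d) := by
          rw [add_mul]; exact add_le_add e1 e2
      _ = _ := by ring
  · intro P hP
    rw [mem_union]
    by_cases hall : ∃ r < q, ∀ i, a ≤ i → i < a + ℓ →
        s + r * T ≤ rt P i ∧ rt P i < s + r * T + T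
    · obtain ⟨r, hr, h⟩ := hall
      left
      exact mem_biUnion.2 ⟨r, mem_range.2 hr, hS3 _ P h⟩
    · right
      push Not at hall
      -- the window of the first edge
      obtain ⟨g1, g2⟩ := hP a le_rfl (by omega)
      set r₀ := (rt P a - s) / T with hr₀
      have hr₀q : r₀ < q := by
        rw [hr₀, Nat.div_lt_iff_lt_mul hT]; omega
      have l1 : r₀ * T ≤ rt P a - s := Nat.div_mul_le_self _ _
      have l2 : rt P a - s < r₀ * T + T := by
        have := Nat.lt_div_mul_add (a := rt P a - s) hT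
        exact this
      obtain ⟨i₁, h1, h2, h3⟩ := hall r₀ hr₀q
      obtain ⟨g3, g4⟩ := hP i₁ h1 h2
      have hsep : ∃ r < q, ¬ (rt P a < s + r * T ↔ rt P i₁ < s + r * T) := by
        by_cases h4 : s + r₀ * T ≤ rt P i₁
        · have h5 := h3 h4
          refine ⟨r₀ + 1, ?_, ?_⟩
          · by_contra h6
            have h7 : q * T ≤ (r₀ + 1) * T := Nat.mul_le_mul_right _ (by omega)
            rw [add_mul, one_mul] at h7
            omega
          · rw [add_mul, one_mul]
            intro h6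
            have := h6.1 (by omega)
            omega
        · refine ⟨r₀, hr₀q, fun h6 => ?_⟩
          have := h6.2 (by omega)
          omega
      obtain ⟨r, hr, h4⟩ := hsep
      obtain ⟨i, h5, h6, h7⟩ := exists_change (fun i => rt P i < s + r * T) h1 h4
      obtain ⟨k, hk⟩ := exists_cut hd hrt (P := P) (T := s + r * T) (i := i) (by omega) h7
      exact mem_biUnion.2 ⟨(r, k), by simp [hr], hF3 (r, k) P i h5 (by omega) hk⟩

theorem cover (hd : c.Decomposable) (hc : c.Computes (Reach n d))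
    {rt : (Fin d → Fin n) → ℕ → ℕ}
    (hrt : ∀ P i (h : i < d), rt P i < c.L ∧ Lit c (inpt P) (rt P i) (ed P ⟨i, h⟩) true)
    {q : ℕ} (hq : 0 < q) (hqn : 4 * q ^ 2 * Fintype.card K ≤ n) (j : ℕ) :
    ∀ a s : ℕ, a + 2 ^ j * (2 * Fintype.card K + 1) ≤ d →
    ∃ S : Finset (Fin d → Fin n),
      Dep S {i : Fin d | a < (i : ℕ) ∧ (i : ℕ) < a + 2 ^ j * (2 * Fintype.card K + 1)} ∧
      S.card * n ≤ Fintype.card K * n ^ d ∧
      ∀ P, (∀ i, a ≤ i → i < a + 2 ^ j * (2 * Fintype.card K + 1) →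
        s ≤ rt P i ∧ rt P i < s + q ^ j) → P ∈ S := by
  induction j with
  | zero =>
    intro a s ha
    refine ⟨∅, dep_empty _, by simp, fun P hP => ?_⟩
    exfalso
    have := read_card (c := c) (P := P) (s := s) (a := a) (ℓ := 2 * Fintype.card K + 1)
      (by omega) (fun i h1 h2 => by
        obtain ⟨h3, h4⟩ := hP i h1 (by omega)
        have h5 := (hrt P i (by omega)).2
        have h6 : rt P i = s := by simp at h4; omega
        rw [h6] at h5
        exact h5)
    omega
  | succ j ih =>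
    intro a s ha
    set w := Fintype.card K with hw
    set ℓ := 2 ^ j * (2 * w + 1) with hℓ
    have hℓ0 : 0 < ℓ := by positivity
    have e2 : 2 ^ (j + 1) * (2 * w + 1) = ℓ + ℓ := by rw [hℓ, pow_succ]; ring
    rw [e2] at ha ⊢
    obtain ⟨A, hA1, hA2, hA3⟩ := half (q := q) (T := q ^ j) (ℓ := ℓ) (a := a) (s := s) hd hc hrt
      (by positivity) hℓ0 (by omega) (fun s => ih a s (by omega))
    obtain ⟨B, hB1, hB2, hB3⟩ := half (q := q) (T := q ^ j) (ℓ := ℓ) (a := a + ℓ) (s := s) hd hc hrt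
      (by positivity) hℓ0 (by omega) (fun s => ih (a + ℓ) s (by omega))
    refine ⟨A ∩ B, Dep.inter (hA1.mono fun i hi => ⟨hi.1, by have := hi.2; omega⟩)
      (hB1.mono fun i hi => ⟨by have := hi.1; omega, by have := hi.2; omega⟩), ?_, ?_⟩
    · have h1 := card_inter_of_dep hA1 hB1 (Set.disjoint_left.2 fun i hi hi' => by
        have := hi.2; have := hi'.1; omega)
      simp only [Fintype.card_fun, Fintype.card_fin] at h1
      rw [← hw] at hA2 hB2
      have hn : 0 < n := Nat.pos_of_ne_zero (NeZero.ne n)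
      have hN : 0 < n ^ d := by positivity
      -- (A ∩ B) * N * n * n ≤ (2 q w N) ^ 2 ≤ n w N N
      have h2 : ((A ∩ B).card * n) * (n * n ^ d) ≤ (w * n ^ d) * (n * n ^ d) := by
        calc ((A ∩ B).card * n) * (n * n ^ d) = ((A ∩ B).card * n ^ d) * (n * n) := by ring
          _ = (A.card * n) * (B.card * n) := by rw [h1]; ring
          _ ≤ (2 * q * w * n ^ d) * (2 * q * w * n ^ d) := Nat.mul_le_mul hA2 hB2
          _ = (4 * q ^ 2 * w) * (w * n ^ d * n ^ d) := by ring
          _ ≤ n * (w * n ^ d * n ^ d) := Nat.mul_le_mul_right _ hqn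
          _ = _ := by ring
      exact Nat.le_of_mul_le_mul_right h2 (by positivity)
    · intro P hP
      rw [pow_succ, mul_comm] at hP
      exact mem_inter.2 ⟨hA3 P fun i h1 h2 => hP i h1 (by omega),
        hB3 P fun i h1 h2 => hP i (by omega) (by omega)⟩

/-- The lower bound. -/
theorem lower (hd : c.Decomposable) (hc : c.Computes (Reach n d)) {q m : ℕ} (hq : 0 < q)
    (hqn : 4 * q ^ 2 * Fintype.card K ≤ n) (hm : 2 ^ m * (2 * Fintype.card K + 1) ≤ d) :
    q ^ m < c.L := by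
  by_contra hL
  push Not at hL
  have hex : ∀ (P : Fin d → Fin n) (i : ℕ), ∃ t : ℕ, ∀ h : i < d,
      t < c.L ∧ Lit c (inpt P) t (ed P ⟨i, h⟩) true := by
    intro P i
    by_cases h : i < d
    · obtain ⟨t, h1, h2⟩ := exists_read hc P ⟨i, h⟩
      exact ⟨t, fun _ => ⟨h1, h2⟩⟩
    · exact ⟨0, fun h' => absurd h' h⟩
  choose rt hrt using hex
  obtain ⟨S, _, h2, h3⟩ := cover hd hc hrt hq hqn m 0 0 (by omega)
  have hK : 0 < Fintype.card K := Fintype.card_pos_iff.2 ⟨c.out⟩
  have h4 : S = univ := by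
    apply eq_univ_of_forall
    intro P
    apply h3
    intro i _ hi
    have := (hrt P i (by omega)).1
    omega
  rw [h4, Finset.card_univ, Fintype.card_fun, Fintype.card_fin, Fintype.card_fin, mul_comm] at h2
  have hn : 0 < n := Nat.pos_of_ne_zero (NeZero.ne n)
  have h5 : n ≤ Fintype.card K := Nat.le_of_mul_le_mul_right h2 (by positivity)
  have h6 : 4 * q ^ 2 * Fintype.card K ≥ 4 * 1 * Fintype.card K :=
    Nat.mul_le_mul_right _ (Nat.mul_le_mul_left _ (Nat.one_le_pow _ _ hq))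
  omega

end Pool.Agent.V7H42.SC
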