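import Pool.Agent.V7H42.SC.Upper
import Pool.Agent.V7H42.SC.Lower

/-!
# The classes defined by decomposable circuits
-/

set_option autoImplicit false
set_option linter.unusedSectionVars false

namespace Pool.Agent.V7H42.SC

/-- A sequence of Boolean functions, one for each number `N` of variables, is in the class if it is
computed by layered decomposable circuits with at most `N ^ e + e` layers and width at most
`(log N) ^ e + e`, for some `e`. -/
def DecomposableSC (f : ∀ N : ℕ, (Fin N → Bool) → Prop) : Prop :=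
  ∃ e : ℕ, ∀ N : ℕ, ∃ (K : Type) (_ : Fintype K) (c : Circuit (Fin N) K), c.Decomposable ∧
    c.Computes (f N) ∧ c.L ≤ N ^ e + e ∧ Fintype.card K ≤ (Nat.log 2 N) ^ e + e

/-- A sequence of Boolean functions, one for each number `N` of variables, is in the class if it is
computed by layered decomposable circuits with at most `(log N) ^ e + e` layers and width at most
`N ^ e + e`, for some `e`. -/
def DecomposableNC (f : ∀ N : ℕ, (Fin N → Bool) → Prop) : Prop :=
  ∃ e : ℕ, ∀ N : ℕ, ∃ (K : Type) (_ : Fintype K) (c : Circuit (Fin N) K), c.Decomposable ∧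
    c.Computes (f N) ∧ c.L ≤ (Nat.log 2 N) ^ e + e ∧ Fintype.card K ≤ N ^ e + e

section Sub

variable {V V' K : Type*}

/-- substitution of variables -/
def Wire.sub (σ : V → V' ⊕ Bool) : Wire V K → Wire V' K
  | .gate k => .gate k
  | .lit v b => match σ v with
    | .inl v' => .lit v' b
    | .inr e => .const (e == b)
  | .const b => .const b

def Circuit.sub (σ : V → V' ⊕ Bool) (c : Circuit V K) : Circuit V' K where
  L := c.L
  gate := fun t k => ⟨(c.gate t k).isAnd, fun s => ((c.gate t k).inp s).sub σ⟩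
  out := c.out

/-- the old input -/
def pull (σ : V → V' ⊕ Bool) (y : V' → Bool) (v : V) : Bool :=
  match σ v with
  | .inl v' => y v'
  | .inr e => e

theorem sub_eval (σ : V → V' ⊕ Bool) (y : V' → Bool) (prev : K → Bool) (w : Wire V K) :
    (w.sub σ).eval y prev = w.eval (pull σ y) prev := by
  cases w with
  | gate k => rfl
  | lit v b =>
    simp only [Wire.sub, Wire.eval, pull]
    cases h : σ v <;> rfl
  | const b => rfl

theorem sub_val (σ : V → V' ⊕ Bool) (c : Circuit V K) (y : V' → Bool) (t : ℕ) :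
    ∀ k, (c.sub σ).val y t k = c.val (pull σ y) t k := by
  induction t with
  | zero => intro k; rfl
  | succ t ih =>
    intro k
    rw [val_succ, val_succ, show (c.sub σ).val y t = c.val (pull σ y) t from funext ih]
    simp only [Gate.eval, Circuit.sub, sub_eval]

theorem sub_wire_vars (σ : V → V' ⊕ Bool) {p' : K → Set V'} {p : K → Set V}
    (h : ∀ k, ∀ v' ∈ p' k, ∃ v ∈ p k, σ v = .inl v') (w : Wire V K) :
    ∀ v' ∈ (w.sub σ).vars p', ∃ v ∈ w.vars p, σ v = .inl v' := by
  intro v' hv'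
  cases w with
  | gate k => exact h k v' hv'
  | lit v b =>
    simp only [Wire.sub] at hv'
    cases hs : σ v with
    | inl u =>
      rw [hs] at hv'
      simp only [Wire.vars, Set.mem_singleton_iff] at hv'
      exact ⟨v, Set.mem_singleton v, by rw [hs, hv']⟩
    | inr e =>
      rw [hs] at hv'
      exact absurd hv' (by simp [Wire.vars])
  | const b => exact absurd hv' (by simp [Wire.sub, Wire.vars])

theorem sub_vars (σ : V → V' ⊕ Bool) (c : Circuit V K) (t : ℕ) :
    ∀ k, ∀ v' ∈ (c.sub σ).vars t k, ∃ v ∈ c.vars t k, σ v = .inl v' := by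
  induction t with
  | zero => intro k v' hv'; exact absurd hv' (by simp [Circuit.vars])
  | succ t ih =>
    intro k v' hv'
    rw [mem_vars_succ] at hv'
    rcases hv' with hv' | hv'
    · obtain ⟨v, h1, h2⟩ := sub_wire_vars σ ih ((c.gate t k).inp false) v' hv'
      exact ⟨v, Or.inl h1, h2⟩
    · obtain ⟨v, h1, h2⟩ := sub_wire_vars σ ih ((c.gate t k).inp true) v' hv'
      exact ⟨v, Or.inr h1, h2⟩

theorem sub_dec (σ : V → V' ⊕ Bool) (hσ : ∀ u v v', σ u = .inl v' → σ v = .inl v' → u = v)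
    {c : Circuit V K} (hc : c.Decomposable) : (c.sub σ).Decomposable := by
  intro t ht k hk
  refine Set.disjoint_left.2 fun v' h1 h2 => ?_
  obtain ⟨v, h3, h4⟩ := sub_wire_vars σ (sub_vars σ c t) _ v' h1
  obtain ⟨u, h5, h6⟩ := sub_wire_vars σ (sub_vars σ c t) _ v' h2
  obtain rfl := hσ u v v' h6 h4
  exact Set.disjoint_left.1 (hc t ht k hk) h3 h5

end Sub

/-- the embedding of the variables -/
def emb {n N : ℕ} (h : n * (n * n) ≤ N) (v : Fin n × Fin n × Fin n) : Fin N :=
  ⟨finProdFinEquiv (v.1, finProdFinEquiv v.2), (finProdFinEquiv (v.1, finProdFinEquiv v.2)).isLt.trans_le h⟩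

theorem emb_inj {n N : ℕ} (h : n * (n * n) ≤ N) : Function.Injective (emb h) := by
  intro u v huv
  simp only [emb, Fin.mk.injEq] at huv
  have h1 := finProdFinEquiv.injective (Fin.ext huv)
  simp only [Prod.mk.injEq, EmbeddingLike.apply_eq_iff_eq] at h1
  exact Prod.ext h1.1 h1.2

/-- Reachability with `n = 2 ^ b` vertices in each level and `n` levels of edges, as a function of
the first `n ^ 3` of `N` variables. -/
def reachPow (b N : ℕ) (x : Fin N → Bool) : Prop :=
  ∃ h : 2 ^ b * (2 ^ b * 2 ^ b) ≤ N, Reach (2 ^ b) (2 ^ b) fun v => x (emb h v)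

/-- The reachability functions, for all numbers `N` of variables, with `n = 2 ^ b` vertices in each
level and `n` levels of edges, where `n` is the largest power of two with `n ^ 3 ≤ N`. -/
def reachFamily (N : ℕ) : (Fin N → Bool) → Prop := reachPow (Nat.log 2 N / 3) N

theorem size_le {N : ℕ} (hN : N ≠ 0) :
    2 ^ (Nat.log 2 N / 3) * (2 ^ (Nat.log 2 N / 3) * 2 ^ (Nat.log 2 N / 3)) ≤ N := by
  calc _ = 2 ^ (3 * (Nat.log 2 N / 3)) := by rw [pow_mul, ← pow_add, ← pow_add, ← pow_mul]; congr 1; ring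
    _ ≤ 2 ^ Nat.log 2 N := Nat.pow_le_pow_right (by norm_num) (Nat.mul_div_le _ _)
    _ ≤ N := Nat.pow_log_le_self 2 hN

theorem family_nc : DecomposableNC reachFamily := by
  refine ⟨3, fun N => ?_⟩
  rcases Nat.eq_zero_or_pos N with rfl | hN
  · refine ⟨Unit, inferInstance, ⟨1, fun _ _ => falseGate, ()⟩, ?_, ?_, by simp, by simp⟩
    · intro t _ k hk
      exact absurd hk (by simp [falseGate])
    · intro x
      constructor
      · intro h
        exact absurd h (by simp [Circuit.val, Gate.eval, falseGate, Wire.eval])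
      · rintro ⟨h, _⟩
        exact absurd h (by simp)
  · set b := Nat.log 2 N / 3 with hb
    have hle := size_le hN.ne'
    rw [← hb] at hle
    refine ⟨KU (2 ^ b) b, inferInstance,
      (uCirc (2 ^ b) b b).sub (fun v => .inl (emb hle v)), ?_, ?_, ?_, ?_⟩
    · refine sub_dec _ (fun u v v' h1 h2 => ?_) (u_dec le_rfl)
      have := h1.trans h2.symm
      injection this with this
      exact emb_inj hle this
    · intro x
      show (Circuit.sub _ _).val x (uCirc (2 ^ b) b b).L (uCirc (2 ^ b) b b).out = true ↔ _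
      rw [sub_val, u_comp (n := 2 ^ b) (m := b) (b := b) le_rfl]
      exact ⟨fun h => ⟨hle, h⟩, fun ⟨_, h⟩ => h⟩
    · show 1 + b * (b + 1) ≤ _
      have h1 : b ≤ Nat.log 2 N := Nat.div_le_self _ _
      have h2 : b ^ 3 ≤ (Nat.log 2 N) ^ 3 := Nat.pow_le_pow_left h1 3
      have h3 : 1 + b * (b + 1) ≤ b ^ 3 + 3 := by
        rcases Nat.lt_or_ge b 2 with h | h
        · interval_cases b <;> norm_num
        · nlinarith [mul_le_mul h h (Nat.zero_le _) (Nat.zero_le _)]
      omega
    · have h1 : Fintype.card (KU (2 ^ b) b) = 2 ^ b * (2 ^ b * (2 ^ b * 2 ^ b)) := by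
        simp [KU]
      rw [h1]
      have h2 : 2 ^ b ≤ N := by
        calc 2 ^ b ≤ 2 ^ Nat.log 2 N := Nat.pow_le_pow_right (by norm_num) (Nat.div_le_self _ _)
          _ ≤ N := Nat.pow_log_le_self 2 hN.ne'
      calc 2 ^ b * (2 ^ b * (2 ^ b * 2 ^ b)) ≤ N * N := Nat.mul_le_mul h2 hle
        _ ≤ N ^ 3 + 3 := by
          have : N ^ 3 = N * (N * N) := by ring
          nlinarith

theorem exists_params (e : ℕ) : ∃ a : ℕ, 4 * ((12 * a) ^ e + e) + 4 ≤ 2 ^ (2 * a) ∧
    (2 ^ (12 * a)) ^ e + e ≤ (2 ^ a) ^ (2 * a) := by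
  have h := tendsto_pow_const_div_const_pow_of_one_lt (e + 1) (by norm_num : (1 : ℝ) < 2)
  have h1 := (h.eventually (gt_mem_nhds (show (0 : ℝ) < 1 / (8 * 12 ^ e) by positivity))).and
    (Filter.eventually_ge_atTop (8 * (e + 2)))
  obtain ⟨a, h2, h3⟩ := h1.exists
  have h2' : (8 * 12 ^ e : ℝ) * (a : ℝ) ^ (e + 1) < 2 ^ a := by
    rw [div_lt_div_iff₀ (by positivity) (by positivity)] at h2
    linarith
  have h4 : 8 * 12 ^ e * a ^ (e + 1) < 2 ^ a := by exact_mod_cast h2'
  refine ⟨a, ?_, ?_⟩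
  · have ha : 1 ≤ a := by omega
    have h5 : (12 * a) ^ e * 4 ≤ 2 ^ a := by
      calc (12 * a) ^ e * 4 ≤ 8 * 12 ^ e * a ^ (e + 1) := by
            rw [mul_pow, pow_succ]
            have : a ^ e * 1 ≤ a ^ e * a := Nat.mul_le_mul_left _ ha
            calc 12 ^ e * a ^ e * 4 = 12 ^ e * (a ^ e * 1) * 4 := by ring
              _ ≤ 12 ^ e * (a ^ e * a) * 4 := by gcongr
              _ ≤ 12 ^ e * (a ^ e * a) * 8 := by gcongr; norm_num
              _ = _ := by ring
        _ ≤ 2 ^ a := h4.le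
    have h6 : 4 * e + 4 ≤ 2 ^ a := by
      have : a < 2 ^ a := Nat.lt_two_pow_self
      omega
    have h7 : 2 ^ (2 * a) = 2 ^ a * 2 ^ a := by rw [two_mul, pow_add]
    rw [h7]
    have h8 : 2 * 2 ^ a ≤ 2 ^ a * 2 ^ a := Nat.mul_le_mul_right _ (by omega)
    omega
  · have h5 : (2 ^ (12 * a)) ^ e = 2 ^ (12 * a * e) := (pow_mul _ _ _).symm
    have h6 : (2 ^ a) ^ (2 * a) = 2 ^ (a * (2 * a)) := (pow_mul _ _ _).symm
    rw [h5, h6]
    have h7 : 12 * a * e + 1 ≤ a * (2 * a) := by
      have : a * (8 * (e + 2)) ≤ a * a := Nat.mul_le_mul_left _ h3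
      nlinarith
    calc 2 ^ (12 * a * e) + e ≤ 2 ^ (12 * a * e) + 2 ^ (12 * a * e) := by
          apply Nat.add_le_add_left
          have h8 : e ≤ 12 * a * e := by nlinarith
          exact h8.trans Nat.lt_two_pow_self.le
      _ = 2 ^ (12 * a * e + 1) := by rw [pow_succ]; ring
      _ ≤ 2 ^ (a * (2 * a)) := Nat.pow_le_pow_right (by norm_num) h7

open Classical in
/-- the inverse substitution -/
noncomputable def unemb {n N : ℕ} (h : n * (n * n) ≤ N) (v : Fin N) :
    (Fin n × Fin n × Fin n) ⊕ Bool :=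
  if hv : ∃ u, emb h u = v then .inl hv.choose else .inr false

theorem pull_unemb {n N : ℕ} (h : n * (n * n) ≤ N) (x : Fin n × Fin n × Fin n → Bool)
    (u : Fin n × Fin n × Fin n) : pull (unemb h) x (emb h u) = x u := by
  have hv : ∃ u', emb h u' = emb h u := ⟨u, rfl⟩
  simp only [pull, unemb, dif_pos hv]
  congr 1
  exact emb_inj h hv.choose_spec

theorem family_not_sc : ¬ DecomposableSC reachFamily := by
  rintro ⟨e, he⟩
  obtain ⟨a, h1, h2⟩ := exists_params e
  obtain ⟨K, hK, c, hd, hc, hL, hw⟩ := he (2 ^ (12 * a))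
  have hlog : Nat.log 2 (2 ^ (12 * a)) = 12 * a := Nat.log_pow (by norm_num) _
  have hb : Nat.log 2 (2 ^ (12 * a)) / 3 = 4 * a := by rw [hlog]; omega
  have hle : 2 ^ (4 * a) * (2 ^ (4 * a) * 2 ^ (4 * a)) ≤ 2 ^ (12 * a) := by
    rw [← pow_add, ← pow_add]
    exact (congrArg _ (by ring)).le
  have key := lower (n := 2 ^ (4 * a)) (d := 2 ^ (4 * a)) (c := c.sub (unemb hle)) (q := 2 ^ a)
    (m := 2 * a) ?_ ?_ (by positivity) ?_ ?_
  · change _ < c.L at key
    omega
  · refine sub_dec _ (fun u v v' h3 h4 => ?_) hd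
    simp only [unemb] at h3 h4
    split_ifs at h3 h4 with h5 h6
    injection h3 with h3
    injection h4 with h4
    rw [← h5.choose_spec, ← h6.choose_spec, h3, h4]
  · intro x
    show (c.sub _).val x c.L c.out = true ↔ _
    rw [sub_val, hc]
    unfold reachFamily
    rw [hb]
    unfold reachPow
    constructor
    · rintro ⟨h, h3⟩
      have : (fun v => pull (unemb hle) x (emb h v)) = x := funext fun v => pull_unemb hle x v
      rwa [this] at h3
    · intro h3
      refine ⟨hle, ?_⟩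
      have : (fun v => pull (unemb hle) x (emb hle v)) = x := funext fun v => pull_unemb hle x v
      rwa [this]
  · rw [hlog] at hw
    have h3 : 2 ^ (4 * a) = 2 ^ (2 * a) * 2 ^ (2 * a) := by rw [← pow_add]; congr 1; ring
    have h4 : (2 ^ a) ^ 2 = 2 ^ (2 * a) := by rw [← pow_mul]; congr 1; ring
    rw [h3, h4]
    calc 4 * 2 ^ (2 * a) * Fintype.card K = 2 ^ (2 * a) * (4 * Fintype.card K) := by ring
      _ ≤ 2 ^ (2 * a) * 2 ^ (2 * a) := Nat.mul_le_mul_left _ (by omega)
  · rw [hlog] at hw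
    have h3 : 2 ^ (4 * a) = 2 ^ (2 * a) * 2 ^ (2 * a) := by rw [← pow_add]; congr 1; ring
    rw [h3]
    exact Nat.mul_le_mul_left _ (by omega)

end Pool.Agent.V7H42.SC
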