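import Mathlib

/-!
# Layered circuits, decomposable circuits, layered reachability
-/

set_option autoImplicit false

namespace Pool.Agent.V7H42.SC

/-- The origin of an input wire of a gate: a gate of the previous layer, a literal (`lit v true` is
the variable `v`, `lit v false` its negation), or a constant. -/
inductive Wire (V K : Type*)
  | gate (k : K)
  | lit (v : V) (b : Bool)
  | const (b : Bool)

/-- A gate: AND (`isAnd = true`) or OR, with two input wires, `inp false` and `inp true`. -/
structure Gate (V K : Type*) where
  isAnd : Bool
  inp : Bool → Wire V K

/-- A layered circuit with `L` layers.  The gates of layer `t + 1` are `gate t k`, `k` in `K` (only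
`t < L` matters), so the width is the number of elements of `K`.  The output gate is the gate `out`
of layer `L`. -/
structure Circuit (V K : Type*) where
  L : ℕ
  gate : ℕ → K → Gate V K
  out : K

/-- The value carried by a wire, if the previous layer has the values `prev`. -/
def Wire.eval {V K : Type*} (x : V → Bool) (prev : K → Bool) : Wire V K → Bool
  | .gate k => prev k
  | .lit v b => x v == b
  | .const b => b

/-- The value of a gate, if the previous layer has the values `prev`. -/
def Gate.eval {V K : Type*} (x : V → Bool) (prev : K → Bool) (g : Gate V K) : Bool :=
  if g.isAnd then (g.inp false).eval x prev && (g.inp true).eval x prev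
  else (g.inp false).eval x prev || (g.inp true).eval x prev

/-- The values of the gates of layer `t`.  (There are no gates in layer `0`: wires from there carry
the constant `false`.) -/
def Circuit.val {V K : Type*} (c : Circuit V K) (x : V → Bool) : ℕ → K → Bool
  | 0 => fun _ => false
  | t + 1 => fun k => (c.gate t k).eval x (c.val x t)

/-- The variables on which a wire depends, if the gates of the previous layer depend on `prev`. -/
def Wire.vars {V K : Type*} (prev : K → Set V) : Wire V K → Set V
  | .gate k => prev k
  | .lit v _ => {v}
  | .const _ => ∅

/-- The variables occurring in the subcircuit of a gate of layer `t`. -/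
def Circuit.vars {V K : Type*} (c : Circuit V K) : ℕ → K → Set V
  | 0 => fun _ => ∅
  | t + 1 => fun k =>
    ((c.gate t k).inp false).vars (c.vars t) ∪ ((c.gate t k).inp true).vars (c.vars t)

/-- The circuit is decomposable: the subcircuits of the two inputs of every AND gate have no
variable in common. -/
def Circuit.Decomposable {V K : Type*} (c : Circuit V K) : Prop :=
  ∀ t < c.L, ∀ k, (c.gate t k).isAnd = true →
    Disjoint (((c.gate t k).inp false).vars (c.vars t)) (((c.gate t k).inp true).vars (c.vars t))

/-- The circuit computes `f`. -/
def Circuit.Computes {V K : Type*} (c : Circuit V K) (f : (V → Bool) → Prop) : Prop :=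
  ∀ x, c.val x c.L c.out = true ↔ f x

/-- Layered reachability.  There are `d + 1` levels of vertices with `n` vertices each; the variable
`(i, u, v)` says that there is an edge from the vertex `u` of level `i` to the vertex `v` of level
`i + 1`.  The value is `true` if there is a path from the vertex `0` of level `0` to the vertex `0`
of level `d`. -/
def Reach (n d : ℕ) [NeZero n] (x : Fin d × Fin n × Fin n → Bool) : Prop :=
  ∃ p : ℕ → Fin n, p 0 = 0 ∧ p d = 0 ∧ ∀ i : Fin d, x (i, p i, p (i + 1)) = true

end Pool.Agent.V7H42.SC
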