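import Pool.Agent.V7H42.SC.Active

/-!
# Certificates of single paths
-/

set_option autoImplicit false

namespace Pool.Agent.V7H42.SC

open Classical

variable {n d : ℕ} [NeZero n]

/-- the vertices of the path of `P` -/
def pv (P : Fin d → Fin n) (i : ℕ) : Fin n := if h : 0 < i ∧ i < d then P ⟨i, h.2⟩ else 0

/-- the edges -/
def ed (P : Fin d → Fin n) (i : Fin d) : Fin d × Fin n × Fin n := (i, pv P i, pv P (i + 1))

/-- the input whose only edges are those of the path -/
noncomputable def inpt (P : Fin d → Fin n) (e : Fin d × Fin n × Fin n) : Bool :=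
  decide (e = ed P e.1)

theorem pv_zero (P : Fin d → Fin n) : pv P 0 = 0 := by simp [pv]
theorem pv_d (P : Fin d → Fin n) : pv P d = 0 := by simp [pv]

theorem inpt_true {P : Fin d → Fin n} {i : Fin d} {u v : Fin n} (h : inpt P (i, u, v) = true) :
    u = pv P i ∧ v = pv P (i + 1) := by
  simp only [inpt, ed, decide_eq_true_eq, Prod.mk.injEq, true_and] at h
  exact h

theorem reach_inpt (P : Fin d → Fin n) : Reach n d (inpt P) :=
  ⟨pv P, pv_zero P, pv_d P, fun i => by simp [inpt, ed]⟩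

variable {K : Type*} {c : Circuit (Fin d × Fin n × Fin n) K}

theorem accepts (hc : c.Computes (Reach n d)) (P : Fin d → Fin n) :
    c.val (inpt P) c.L c.out = true := (hc _).2 (reach_inpt P)

/-- every edge of the path is read -/
theorem exists_read (hc : c.Computes (Reach n d)) (P : Fin d → Fin n) (i : Fin d) :
    ∃ t < c.L, Lit c (inpt P) t (ed P i) true := by
  refine exists_lit (accepts hc P) ?_
  intro h
  obtain ⟨p, _, _, h3⟩ := (hc _).1 h
  have h4 := h3 i
  beta_reduce at h4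
  by_cases h5 : (i, p i, p (i + 1)) = ed P i
  · rw [if_pos h5] at h4
    exact absurd h4 (by simp)
  · rw [if_neg h5] at h4
    apply h5
    obtain ⟨h6, h7⟩ := inpt_true h4
    rw [ed, h6, h7]

/-- two paths whose certificates have a common gate -/
theorem mix (hd : c.Decomposable) (hc : c.Computes (Reach n d)) {P P' : Fin d → Fin n} {T : ℕ}
    {g : K} (h : Act c (inpt P) T g) (h' : Act c (inpt P') T g) :
    ∃ p : ℕ → Fin n, ∀ i : Fin d,
      (ed P' i ∈ c.vars T g ∧ p i = pv P' i ∧ p (i + 1) = pv P' (i + 1)) ∨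
      (ed P i ∉ c.vars T g ∧ p i = pv P i ∧ p (i + 1) = pv P (i + 1)) := by
  obtain ⟨p, _, _, h3⟩ := (hc _).1 (swap hd (accepts hc P) (accepts hc P') h h')
  refine ⟨p, fun i => ?_⟩
  have h4 := h3 i
  beta_reduce at h4
  by_cases h5 : (i, p i, p (i + 1)) ∈ c.vars T g
  · rw [if_pos h5] at h4
    obtain ⟨h6, h7⟩ := inpt_true h4
    left
    refine ⟨?_, h6, h7⟩
    rw [ed, ← h6, ← h7]
    exact h5
  · rw [if_neg h5] at h4
    obtain ⟨h6, h7⟩ := inpt_true h4
    right
    refine ⟨?_, h6, h7⟩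
    rw [ed, ← h6, ← h7]
    exact h5

theorem levels_eq (hd : c.Decomposable) (hc : c.Computes (Reach n d)) {P P' : Fin d → Fin n}
    {T : ℕ} {g : K} (h : Act c (inpt P) T g) (h' : Act c (inpt P') T g) (i : Fin d) :
    ed P i ∈ c.vars T g ↔ ed P' i ∈ c.vars T g := by
  constructor
  · intro hi
    obtain ⟨p, hp⟩ := mix hd hc h h'
    rcases hp i with h1 | h1
    · exact h1.1
    · exact absurd hi h1.1
  · intro hi
    obtain ⟨p, hp⟩ := mix hd hc h' h
    rcases hp i with h1 | h1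
    · exact h1.1
    · exact absurd hi h1.1

/-- the gate `g` of layer `T` is used by the path, and separates the edges `i` and `i + 1` -/
def CutAt (c : Circuit (Fin d × Fin n × Fin n) K) (T : ℕ) (g : K) (P : Fin d → Fin n)
    (i : ℕ) : Prop :=
  Act c (inpt P) T g ∧ ∃ h : i + 1 < d,
    ¬ (ed P ⟨i, by omega⟩ ∈ c.vars T g ↔ ed P ⟨i + 1, h⟩ ∈ c.vars T g)

theorem cut_pin (hd : c.Decomposable) (hc : c.Computes (Reach n d)) {P P' : Fin d → Fin n}
    {T : ℕ} {g : K} {i : ℕ} (h : CutAt c T g P i) (h' : Act c (inpt P') T g) :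
    pv P' (i + 1) = pv P (i + 1) := by
  obtain ⟨h1, hi, h2⟩ := h
  obtain ⟨p, hp⟩ := mix hd hc h1 h'
  have e1 := hp ⟨i, by omega⟩
  have e2 := hp ⟨i + 1, hi⟩
  have l1 := levels_eq hd hc h1 h' ⟨i, by omega⟩
  have l2 := levels_eq hd hc h1 h' ⟨i + 1, hi⟩
  simp only at e1 e2
  rcases e1 with ⟨a1, _, a3⟩ | ⟨a1, _, a3⟩ <;> rcases e2 with ⟨b1, b2, _⟩ | ⟨b1, b2, _⟩
  · exact absurd (iff_of_true (l1.2 a1) (l2.2 b1)) h2
  · rw [← a3, ← b2]
  · rw [← a3, ← b2]
  · exact absurd (iff_of_false a1 b1) h2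

/-- the paths cut by a gate inside an interval of edges are contained in a set given by one
coordinate -/
theorem exists_pin (hd : c.Decomposable) (hc : c.Computes (Reach n d)) (T : ℕ) (g : K)
    (a b : ℕ) (hb : b ≤ d) :
    (∀ (P : Fin d → Fin n) (i : ℕ), a ≤ i → i + 1 < b → ¬ CutAt c T g P i) ∨
    ∃ (j : Fin d) (v : Fin n), a < (j : ℕ) ∧ (j : ℕ) < b ∧
      ∀ (P : Fin d → Fin n) (i : ℕ), a ≤ i → i + 1 < b → CutAt c T g P i → P j = v := by
  by_cases h : ∀ (P : Fin d → Fin n) (i : ℕ), a ≤ i → i + 1 < b → ¬ CutAt c T g P i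
  · exact Or.inl h
  · right
    push Not at h
    obtain ⟨P₀, i₀, h1, h2, h3⟩ := h
    refine ⟨⟨i₀ + 1, by omega⟩, pv P₀ (i₀ + 1), by simp; omega, by simpa using h2, ?_⟩
    intro P i _ _ h4
    rw [← cut_pin hd hc h3 h4.1, pv, dif_pos ⟨by omega, by omega⟩]

/-- at most `2 w` edges are read at the same time -/
theorem read_card [Fintype K] {P : Fin d → Fin n} {s : ℕ} {a ℓ : ℕ} (hd' : a + ℓ ≤ d)
    (h : ∀ i (_ : a ≤ i) (h2 : i < a + ℓ), Lit c (inpt P) s (ed P ⟨i, by omega⟩) true) :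
    ℓ ≤ 2 * Fintype.card K := by
  have h' : ∀ i : Fin ℓ, ∃ ks : K × Bool,
      (c.gate s ks.1).inp ks.2 = .lit (ed P ⟨a + i, by omega⟩) true := by
    intro i
    obtain ⟨k, t, _, _, h3⟩ := h (a + i) (by omega) (by omega)
    exact ⟨(k, t), h3⟩
  choose F hF using h'
  have hinj : Function.Injective F := by
    intro i j hij
    have h1 := hF i
    rw [hij, hF j] at h1
    injection h1 with h1
    have h2 : (⟨a + j, by omega⟩ : Fin d) = ⟨a + i, by omega⟩ := congrArg Prod.fst h1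
    simp only [Fin.mk.injEq] at h2
    ext; omega
  have := Fintype.card_le_of_injective F hinj
  simp only [Fintype.card_fin, Fintype.card_prod, Fintype.card_bool] at this
  omega

end Pool.Agent.V7H42.SC
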