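import Pool.Agent.V7H42.SC.Defs

/-!
# Decomposable circuits of small depth for layered reachability
-/

set_option autoImplicit false
set_option linter.unusedSectionVars false

namespace Pool.Agent.V7H42.SC

theorem val_succ {V K : Type*} (c : Circuit V K) (x : V → Bool) (t : ℕ) (k : K) :
    c.val x (t + 1) k = (c.gate t k).eval x (c.val x t) := rfl

theorem mem_vars_succ {V K : Type*} (c : Circuit V K) (t : ℕ) (k : K) (v : V) :
    v ∈ c.vars (t + 1) k ↔ v ∈ ((c.gate t k).inp false).vars (c.vars t) ∨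
      v ∈ ((c.gate t k).inp true).vars (c.vars t) := Iff.rfl

variable (n m b : ℕ) [NeZero n]

/-- the gates of one layer -/
abbrev KU : Type := Fin (2 ^ m) × Fin n × Fin n × Fin n

/-- a gate that is constantly false -/
def falseGate {V K : Type*} : Gate V K := ⟨false, fun _ => .const false⟩

/-- the AND step of stage `j` -/
def andGate (j : ℕ) (k : KU n m) : Gate (Fin (2 ^ m) × Fin n × Fin n) (KU n m) :=
  if h : (k.1 : ℕ) + 2 ^ j < 2 ^ m then
    ⟨true, fun s => if s then .gate (⟨k.1 + 2 ^ j, h⟩, k.2.2.2, k.2.2.1, 0)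
      else .gate (k.1, k.2.1, k.2.2.2, 0)⟩
  else falseGate

/-- the OR step with shift `2 ^ i` -/
def orGate (i : ℕ) (k : KU n m) : Gate (Fin (2 ^ m) × Fin n × Fin n) (KU n m) :=
  if h : (k.2.2.2 : ℕ) + 2 ^ i < n then
    ⟨false, fun s => if s then .gate (k.1, k.2.1, k.2.2.1, ⟨k.2.2.2 + 2 ^ i, h⟩)
      else .gate k⟩
  else ⟨false, fun _ => .gate k⟩

/-- the gates -/
def uGate : ℕ → KU n m → Gate (Fin (2 ^ m) × Fin n × Fin n) (KU n m)
  | 0 => fun k => ⟨false, fun _ => .lit (k.1, k.2.1, k.2.2.1) true⟩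
  | s + 1 => fun k => match s % (b + 1) with
    | 0 => andGate n m (s / (b + 1)) k
    | i + 1 => orGate n m i k

/-- the circuit -/
def uCirc : Circuit (Fin (2 ^ m) × Fin n × Fin n) (KU n m) where
  L := 1 + m * (b + 1)
  gate := uGate n m b
  out := (⟨0, by positivity⟩, 0, 0, 0)

variable {n m b}

/-- variables of the levels between `lo` and `hi` -/
def Lev (lo hi : ℕ) : Set (Fin (2 ^ m) × Fin n × Fin n) := {v | lo ≤ (v.1 : ℕ) ∧ (v.1 : ℕ) < hi}

/-- reachability for the levels between `a` and `e` -/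
def RR (x : Fin (2 ^ m) × Fin n × Fin n → Bool) (a e : ℕ) (u v : Fin n) : Prop :=
  ∃ p : ℕ → Fin n, p a = u ∧ p e = v ∧
    ∀ i, a ≤ i → i < e → ∀ h : i < 2 ^ m, x (⟨i, h⟩, p i, p (i + 1)) = true

theorem RR.trans {x : Fin (2 ^ m) × Fin n × Fin n → Bool} {a e f : ℕ} (hae : a ≤ e) (hef : e ≤ f)
    {u v : Fin n} : RR x a f u v ↔ ∃ z, RR x a e u z ∧ RR x e f z v := by
  constructor
  · rintro ⟨p, h1, h2, h3⟩
    exact ⟨p e, ⟨p, h1, rfl, fun i h4 h5 h => h3 i h4 (by omega) h⟩,
      ⟨p, rfl, h2, fun i h4 h5 h => h3 i (by omega) h5 h⟩⟩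
  · rintro ⟨z, ⟨p, h1, h2, h3⟩, ⟨p', h1', h2', h3'⟩⟩
    refine ⟨fun i => if i ≤ e then p i else p' i, ?_, ?_, ?_⟩
    · simp [hae, h1]
    · by_cases h : f ≤ e
      · obtain rfl : e = f := by omega
        simp only [le_refl, if_true]
        rw [h2, ← h1', h2']
      · simp [h, h2']
    · intro i h4 h5 h
      by_cases h6 : i < e
      · simp only [show i ≤ e by omega, show i + 1 ≤ e by omega, if_true]
        exact h3 i h4 h6 h
      · have h7 : ¬ i + 1 ≤ e := by omega
        by_cases h8 : i ≤ e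
        · obtain rfl : i = e := by omega
          simp only [h8, h7, if_true, if_false]
          rw [h2, ← h1']
          exact h3' i (by omega) h5 h
        · simp only [h7, h8, if_false]
          exact h3' i (by omega) h5 h

/-- the invariant at the beginning of stage `j` -/
def Inv (x : Fin (2 ^ m) × Fin n × Fin n → Bool) (j t : ℕ) : Prop :=
  (∀ (a : Fin (2 ^ m)) (u v : Fin n), (a : ℕ) + 2 ^ j ≤ 2 ^ m →
    ((uCirc n m b).val x t (a, u, v, 0) = true ↔ RR x a (a + 2 ^ j) u v)) ∧
  ∀ k, (uCirc n m b).vars t k ⊆ Lev k.1 (k.1 + 2 ^ j)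

theorem mod_zero (j : ℕ) : j * (b + 1) % (b + 1) = 0 := Nat.mul_mod_left _ _
theorem div_zero' (j : ℕ) : j * (b + 1) / (b + 1) = j := Nat.mul_div_cancel _ (by omega)
theorem mod_i (j i : ℕ) (hi : i < b) : (j * (b + 1) + (i + 1)) % (b + 1) = i + 1 := by
  rw [Nat.add_comm, Nat.add_mul_mod_self_right, Nat.mod_eq_of_lt (by omega)]

theorem gate_zero (k : KU n m) : (uCirc n m b).gate 0 k =
    ⟨false, fun _ => .lit (k.1, k.2.1, k.2.2.1) true⟩ := rfl

theorem gate_and (j : ℕ) (k : KU n m) :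
    (uCirc n m b).gate (1 + j * (b + 1)) k = andGate n m j k := by
  show uGate n m b (1 + j * (b + 1)) k = _
  rw [add_comm]
  show (match j * (b + 1) % (b + 1) with
    | 0 => andGate n m (j * (b + 1) / (b + 1)) k
    | i + 1 => orGate n m i k) = _
  rw [mod_zero, div_zero']

theorem gate_or (j i : ℕ) (hi : i < b) (k : KU n m) :
    (uCirc n m b).gate (1 + j * (b + 1) + (i + 1)) k = orGate n m i k := by
  show uGate n m b (1 + j * (b + 1) + (i + 1)) k = _
  rw [show 1 + j * (b + 1) + (i + 1) = (j * (b + 1) + (i + 1)) + 1 by ring]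
  show (match (j * (b + 1) + (i + 1)) % (b + 1) with
    | 0 => andGate n m ((j * (b + 1) + (i + 1)) / (b + 1)) k
    | i + 1 => orGate n m i k) = _
  rw [mod_i j i hi]

/-- value of the gates after the AND step -/
theorem and_step {x : Fin (2 ^ m) × Fin n × Fin n → Bool} {j : ℕ}
    (h : Inv (b := b) x j (1 + j * (b + 1))) :
    (∀ (a : Fin (2 ^ m)) (u v z : Fin n), (a : ℕ) + 2 ^ (j + 1) ≤ 2 ^ m →
      ((uCirc n m b).val x (1 + j * (b + 1) + 1) (a, u, v, z) = true ↔
        RR x a (a + 2 ^ j) u z ∧ RR x (a + 2 ^ j) (a + 2 ^ (j + 1)) z v)) ∧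
    ∀ k, (uCirc n m b).vars (1 + j * (b + 1) + 1) k ⊆ Lev k.1 (k.1 + 2 ^ (j + 1)) := by
  have e2 : 2 ^ (j + 1) = 2 ^ j + 2 ^ j := by rw [pow_succ]; ring
  have p2 : 0 < 2 ^ j := by positivity
  constructor
  · intro a u v z ha
    have h1 : (a : ℕ) + 2 ^ j < 2 ^ m := by omega
    rw [val_succ, gate_and, andGate, dif_pos h1]
    simp only [Gate.eval, Wire.eval, if_true, Bool.and_eq_true, Bool.false_eq_true, if_false]
    rw [h.1 a u z (by omega), h.1 ⟨a + 2 ^ j, h1⟩ z v (by simp only; omega)]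
    simp only [e2, ← add_assoc]
  · intro k v hv
    rw [mem_vars_succ, gate_and, andGate] at hv
    by_cases h1 : (k.1 : ℕ) + 2 ^ j < 2 ^ m
    · rw [dif_pos h1] at hv
      simp only [Wire.vars, if_true, Bool.false_eq_true, if_false] at hv
      rcases hv with hv | hv
      · have := h.2 _ hv
        simp only [Lev, Set.mem_ofPred_eq] at this ⊢
        omega
      · have := h.2 _ hv
        simp only [Lev, Set.mem_ofPred_eq] at this ⊢
        omega
    · rw [dif_neg h1] at hv
      simp [falseGate, Wire.vars] at hv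

/-- value of the gates after some OR steps -/
theorem or_steps {x : Fin (2 ^ m) × Fin n × Fin n → Bool} {j : ℕ}
    (h : Inv (b := b) x j (1 + j * (b + 1))) (i : ℕ) (hi : i ≤ b) :
    (∀ (a : Fin (2 ^ m)) (u v z : Fin n), (a : ℕ) + 2 ^ (j + 1) ≤ 2 ^ m →
      ((uCirc n m b).val x (1 + j * (b + 1) + 1 + i) (a, u, v, z) = true ↔
        ∃ z' : Fin n, (z : ℕ) ≤ z' ∧ (z' : ℕ) < z + 2 ^ i ∧
          RR x a (a + 2 ^ j) u z' ∧ RR x (a + 2 ^ j) (a + 2 ^ (j + 1)) z' v)) ∧
    ∀ k, (uCirc n m b).vars (1 + j * (b + 1) + 1 + i) k ⊆ Lev k.1 (k.1 + 2 ^ (j + 1)) := by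
  induction i with
  | zero =>
    obtain ⟨h1, h2⟩ := and_step h
    refine ⟨fun a u v z ha => ?_, h2⟩
    rw [add_zero, h1 a u v z ha]
    constructor
    · intro h3
      exact ⟨z, le_rfl, by simp, h3⟩
    · rintro ⟨z', h3, h4, h5⟩
      have : z' = z := by
        ext; simp at h4; omega
      rwa [this] at h5
  | succ i ih =>
    obtain ⟨h1, h2⟩ := ih (by omega)
    have e : 1 + j * (b + 1) + 1 + i = 1 + j * (b + 1) + (i + 1) := by ring
    have e3 : 2 ^ (i + 1) = 2 ^ i + 2 ^ i := by rw [pow_succ]; ring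
    constructor
    · intro a u v z ha
      rw [← add_assoc, val_succ, e, gate_or j i (by omega), orGate]
      rw [e] at h1
      by_cases h3 : (z : ℕ) + 2 ^ i < n
      · rw [dif_pos h3]
        simp only [Gate.eval, Wire.eval, if_true, Bool.or_eq_true, Bool.false_eq_true, if_false]
        rw [h1 a u v z ha, h1 a u v ⟨z + 2 ^ i, h3⟩ ha]
        constructor
        · rintro (⟨z', h4, h5, h6⟩ | ⟨z', h4, h5, h6⟩)
          · exact ⟨z', h4, by omega, h6⟩
          · simp only at h4 h5
            exact ⟨z', by omega, by omega, h6⟩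
        · rintro ⟨z', h4, h5, h6⟩
          by_cases h7 : (z' : ℕ) < z + 2 ^ i
          · exact Or.inl ⟨z', h4, h7, h6⟩
          · exact Or.inr ⟨z', by simp only; omega, by simp only; omega, h6⟩
      · rw [dif_neg h3]
        simp only [Gate.eval, Wire.eval, Bool.false_eq_true, if_false, Bool.or_self]
        rw [h1 a u v z ha]
        constructor
        · rintro ⟨z', h4, h5, h6⟩
          exact ⟨z', h4, by omega, h6⟩
        · rintro ⟨z', h4, h5, h6⟩
          exact ⟨z', h4, by have := z'.isLt; omega, h6⟩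
    · intro k v hv
      rw [← add_assoc, mem_vars_succ, e, gate_or j i (by omega), orGate] at hv
      rw [e] at h2
      by_cases h3 : (k.2.2.2 : ℕ) + 2 ^ i < n
      · rw [dif_pos h3] at hv
        simp only [Wire.vars, if_true, Bool.false_eq_true, if_false] at hv
        rcases hv with hv | hv
        · exact h2 _ hv
        · exact h2 (k.1, k.2.1, k.2.2.1, ⟨k.2.2.2 + 2 ^ i, h3⟩) hv
      · rw [dif_neg h3] at hv
        simp only [Wire.vars, or_self] at hv
        exact h2 _ hv

theorem inv_all (hn : n ≤ 2 ^ b) (x : Fin (2 ^ m) × Fin n × Fin n → Bool) (j : ℕ) :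
    Inv (b := b) x j (1 + j * (b + 1)) := by
  induction j with
  | zero =>
    constructor
    · intro a u v _
      rw [zero_mul, add_zero, ← zero_add 1, val_succ, gate_zero]
      simp only [Gate.eval, Wire.eval, Bool.false_eq_true, if_false, Bool.or_self, pow_zero,
        beq_true]
      constructor
      · intro h
        refine ⟨fun i => if i ≤ a then u else v, by simp, by simp, fun i h1 h2 h3 => ?_⟩
        obtain rfl : i = a := by omega
        simpa using h
      · rintro ⟨p, h1, h2, h3⟩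
        have := h3 a le_rfl (by omega) a.isLt
        rwa [h1, h2] at this
    · intro k v hv
      rw [zero_mul, add_zero, ← zero_add 1, mem_vars_succ, gate_zero] at hv
      simp only [Wire.vars, or_self, Set.mem_singleton_iff] at hv
      subst hv
      simp [Lev]
  | succ j ih =>
    obtain ⟨h1, h2⟩ := or_steps ih b le_rfl
    have e : 1 + (j + 1) * (b + 1) = 1 + j * (b + 1) + 1 + b := by ring
    rw [e]
    refine ⟨fun a u v ha => ?_, h2⟩
    have p2 : 2 ^ j ≤ 2 ^ (j + 1) := Nat.pow_le_pow_right (by norm_num) (by omega)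
    rw [h1 a u v 0 ha, RR.trans (x := x) (a := a) (e := a + 2 ^ j) (f := a + 2 ^ (j + 1))
      (by omega) (by omega)]
    constructor
    · rintro ⟨z', _, _, h5⟩
      exact ⟨z', h5⟩
    · rintro ⟨z', h5⟩
      exact ⟨z', by simp, by have := z'.isLt; simp; omega, h5⟩

theorem u_dec (hn : n ≤ 2 ^ b) : (uCirc n m b).Decomposable := by
  intro t _ k hk
  rcases t with _ | s
  · rw [gate_zero] at hk
    exact absurd hk (by simp)
  · have hm : s % (b + 1) = 0 := by
      by_contra h
      obtain ⟨i, hi⟩ := Nat.exists_eq_succ_of_ne_zero h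
      change (match s % (b + 1) with
        | 0 => andGate n m (s / (b + 1)) k
        | i + 1 => orGate n m i k).isAnd = true at hk
      rw [hi] at hk
      simp only [orGate] at hk
      split_ifs at hk
    obtain ⟨j, rfl⟩ : ∃ j, s = j * (b + 1) :=
      ⟨s / (b + 1), (Nat.div_mul_cancel (Nat.dvd_of_mod_eq_zero hm)).symm⟩
    rw [add_comm (j * (b + 1)) 1] at hk ⊢
    rw [gate_and, andGate] at hk ⊢
    by_cases h1 : (k.1 : ℕ) + 2 ^ j < 2 ^ m
    · rw [dif_pos h1]
      simp only [Wire.vars, if_true, Bool.false_eq_true, if_false]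
      have h2 := (inv_all (n := n) (m := m) hn (fun _ => false) j).2
      refine Set.disjoint_left.2 fun v hv hv' => ?_
      have a1 := h2 _ hv
      have a2 := h2 _ hv'
      simp only [Lev, Set.mem_ofPred_eq] at a1 a2
      omega
    · rw [dif_neg h1] at hk
      exact absurd hk (by simp [falseGate])

theorem u_comp (hn : n ≤ 2 ^ b) : (uCirc n m b).Computes (Reach n (2 ^ m)) := by
  intro x
  have h := (inv_all (n := n) (m := m) hn x m).1 ⟨0, by positivity⟩ 0 0 (by simp)
  change (uCirc n m b).val x (1 + m * (b + 1)) (⟨0, by positivity⟩, 0, 0, 0) = true ↔ _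
  rw [h]
  constructor
  · rintro ⟨p, h1, h2, h3⟩
    refine ⟨p, h1, by simpa using h2, fun i => ?_⟩
    exact h3 i (Nat.zero_le _) (by simp) i.isLt
  · rintro ⟨p, h1, h2, h3⟩
    exact ⟨p, h1, by simpa using h2, fun i _ _ h => h3 ⟨i, h⟩⟩

end Pool.Agent.V7H42.SC
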